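import Mathlib

set_option autoImplicit false
set_option linter.unusedSectionVars false

open MeasureTheory Set Topology

namespace Pool.Agent.Results.MP_93dabc_an.NoSelector

/-- A function with values in a real Banach space is scalarly measurable when its composition with
every continuous linear functional is measurable. -/
def ScalarlyMeasurable {Ω X : Type} [MeasurableSpace Ω] [NormedAddCommGroup X] [NormedSpace ℝ X]
    (f : Ω → X) : Prop :=
  ∀ φ : StrongDual ℝ X, Measurable (fun t => φ (f t))

/-- A multi-function is scalarly measurable when it meets every open half-space in a measurable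
set of parameters. -/
def ScalarlyMeasurableMulti {Ω X : Type} [MeasurableSpace Ω] [NormedAddCommGroup X]
    [NormedSpace ℝ X] (F : Ω → Set X) : Prop :=
  ∀ φ : StrongDual ℝ X, φ ≠ 0 → ∀ a : ℝ, MeasurableSet {t | (F t ∩ {x | a < φ x}).Nonempty}

/-- A subset of the circle which is not null-measurable for Lebesgue measure (Vitali). -/
lemma exists_not_nullMeasurable :
    ∃ V : Set UnitAddCircle, ¬ NullMeasurableSet V (volume : Measure UnitAddCircle) := by
  -- the subgroup of rational points
  let Q : AddSubgroup UnitAddCircle :=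
    ((QuotientAddGroup.mk' (AddSubgroup.zmultiples (1:ℝ))).comp
      (Rat.castHom ℝ).toAddMonoidHom).range
  have hQc : Countable Q := by
    have : (Q : Set UnitAddCircle).Countable := Set.countable_range _
    exact this.to_subtype
  have hQi : Infinite Q := by
    let g : ℕ → Q := fun n => ⟨(((1/((n:ℝ)+2)) : ℝ) : UnitAddCircle), ⟨1/((n:ℚ)+2), by
      show ((((1/((n:ℚ)+2) : ℚ) : ℝ)) : UnitAddCircle) = _
      push_cast
      rfl⟩⟩
    apply Infinite.of_injective g
    intro n m hnm
    have h1 : (((1/((n:ℝ)+2)) : ℝ) : UnitAddCircle) = (((1/((m:ℝ)+2)) : ℝ) : UnitAddCircle) :=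
      congrArg Subtype.val hnm
    have hmem : ∀ k : ℕ, (1/((k:ℝ)+2)) ∈ Set.Ico (0:ℝ) (0+1) := by
      intro k
      constructor
      · positivity
      · rw [zero_add, div_lt_one (by positivity)]
        have : (0:ℝ) ≤ k := by positivity
        linarith
    have h2 := (AddCircle.coe_eq_coe_iff_of_mem_Ico (hmem n) (hmem m)).mp h1
    have h3 : (0:ℝ) < (n:ℝ)+2 := by positivity
    have h4 : (0:ℝ) < (m:ℝ)+2 := by positivity
    rw [div_eq_div_iff h3.ne' h4.ne'] at h2
    have h5 : (n:ℝ) = m := by linarith
    exact_mod_cast h5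
  let r : UnitAddCircle → UnitAddCircle := fun x =>
    Quotient.out (QuotientAddGroup.mk (s := Q) x)
  have hr : ∀ x, - r x + x ∈ Q := by
    intro x
    exact QuotientAddGroup.eq.mp (Quotient.out_eq (QuotientAddGroup.mk (s := Q) x))
  have hrq : ∀ x y, - x + y ∈ Q → r x = r y := by
    intro x y h
    have : QuotientAddGroup.mk (s := Q) x = QuotientAddGroup.mk (s := Q) y :=
      QuotientAddGroup.eq.mpr h
    show Quotient.out (QuotientAddGroup.mk (s := Q) x) = _
    rw [this]
  let V : Set UnitAddCircle := {x | r x = x}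
  refine ⟨V, fun hV => ?_⟩
  let T : Q → Set UnitAddCircle := fun q => (fun x => (q : UnitAddCircle) + x) ⁻¹' V
  have hTm : ∀ q, NullMeasurableSet (T q) (volume : Measure UnitAddCircle) := by
    intro q
    exact hV.preimage (quasiMeasurePreserving_add_left _ _)
  have hTd : Pairwise (Function.onFun (AEDisjoint (volume : Measure UnitAddCircle)) T) := by
    intro p q hpq
    apply Disjoint.aedisjoint
    rw [Set.disjoint_left]
    intro x hx hy
    apply hpq
    have h1 : r ((p : UnitAddCircle) + x) = (p : UnitAddCircle) + x := hx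
    have h2 : r ((q : UnitAddCircle) + x) = (q : UnitAddCircle) + x := hy
    have h3 : r ((p : UnitAddCircle) + x) = r ((q : UnitAddCircle) + x) := by
      apply hrq
      have : -((p : UnitAddCircle) + x) + ((q : UnitAddCircle) + x) = (-p + q : Q) := by
        push_cast; abel
      rw [this]
      exact (-p + q : Q).2
    rw [h1, h2] at h3
    exact Subtype.ext (add_right_cancel h3)
  have hTu : (⋃ q, T q) = Set.univ := by
    rw [Set.eq_univ_iff_forall]
    intro x
    rw [Set.mem_iUnion]
    refine ⟨⟨r x - x, ?_⟩, ?_⟩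
    · have := Q.neg_mem (hr x)
      rw [neg_add, neg_neg] at this
      rw [sub_eq_add_neg]
      exact this
    · show r ((r x - x) + x) = (r x - x) + x
      rw [sub_add_cancel]
      symm
      apply hrq
      have := Q.neg_mem (hr x)
      rw [neg_add, neg_neg] at this
      rw [add_comm]
      exact this
  have hTv : ∀ q, (volume : Measure UnitAddCircle) (T q) = volume V := fun q =>
    measure_preimage_add _ _ _
  have hsum := measure_iUnion₀ hTd hTm
  rw [hTu] at hsum
  simp_rw [hTv] at hsum
  have huniv : (volume : Measure UnitAddCircle) Set.univ = 1 := by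
    rw [UnitAddCircle.measure_univ]
  rw [huniv] at hsum
  by_cases h0 : (volume : Measure UnitAddCircle) V = 0
  · rw [h0, tsum_zero] at hsum
    exact one_ne_zero hsum
  · rw [ENNReal.tsum_const_eq_top_of_ne_zero h0] at hsum
    exact ENNReal.one_ne_top hsum

section general

variable {K : Type} [MetricSpace K] [CompactSpace K]

/-- The closed convex bounded set of continuous functions of norm at most 1 taking a prescribed
value at a point. -/
def ball (a : K → ℝ) (t : K) : Set C(K, ℝ) := {x | ‖x‖ ≤ 1 ∧ x t = a t}

lemma ball_convex (a : K → ℝ) (t : K) : Convex ℝ (ball a t) := by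
  intro x hx y hy p q hp hq hpq
  refine ⟨?_, ?_⟩
  · have h1 : x ∈ Metric.closedBall (0 : C(K, ℝ)) 1 := by simpa using hx.1
    have h2 : y ∈ Metric.closedBall (0 : C(K, ℝ)) 1 := by simpa using hy.1
    have h3 := (convex_closedBall (0 : C(K, ℝ)) 1) h1 h2 hp hq hpq
    simpa using h3
  · show p * x t + q * y t = a t
    rw [hx.2, hy.2, ← add_mul, hpq, one_mul]

lemma ball_closed (a : K → ℝ) (t : K) : IsClosed (ball a t) := by
  apply IsClosed.inter
  · exact isClosed_le continuous_norm continuous_const
  · exact isClosed_eq (ContinuousMap.evalCLM ℝ t).continuous continuous_const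

lemma ball_nonempty (a : K → ℝ) (ha : ∀ t, |a t| ≤ 1) (t : K) : (ball a t).Nonempty := by
  refine ⟨ContinuousMap.const K (a t), ?_, rfl⟩
  rw [ContinuousMap.norm_le _ zero_le_one]
  intro s
  exact ha t

/-- a bump function -/
noncomputable def bump (t : K) (r : ℝ) : C(K, ℝ) where
  toFun s := max 0 (1 - dist s t / r)
  continuous_toFun := by fun_prop

lemma bump_self (t : K) (r : ℝ) : bump t r t = 1 := by
  show max 0 (1 - dist t t / r) = 1
  simp

lemma bump_nonneg (t : K) (r : ℝ) (s : K) : 0 ≤ bump t r s := le_max_left _ _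

lemma bump_le_one (t : K) (r : ℝ) (hr : 0 < r) (s : K) : bump t r s ≤ 1 := by
  apply max_le zero_le_one
  have : 0 ≤ dist s t / r := by positivity
  linarith

lemma bump_zero (t : K) (r : ℝ) (hr : 0 < r) (s : K) (h : r ≤ dist s t) : bump t r s = 0 := by
  apply max_eq_left
  have : 1 ≤ dist s t / r := (one_le_div hr).mpr h
  linarith

/-- For a functional φ and a number a below its norm, only finitely many of the sets fail to meet
the half-space φ > a. -/
lemma finite_bad (a : K → ℝ) (ha : ∀ t, |a t| ≤ 1) (φ : StrongDual ℝ C(K, ℝ)) (c : ℝ)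
    (hc : c < ‖φ‖) : {t | ∀ x ∈ ball a t, φ x ≤ c}.Finite := by
  -- a function nearly norming φ
  obtain ⟨x, hx1, hx2⟩ : ∃ x : C(K, ℝ), ‖x‖ ≤ 1 ∧ c < φ x := by
    by_contra hcon
    push Not at hcon
    have hc0 : 0 ≤ c := by
      have := hcon 0 (by simp)
      simpa using this
    have : ‖φ‖ ≤ c := by
      apply ContinuousLinearMap.opNorm_le_of_unit_norm hc0
      intro x hx
      rw [Real.norm_eq_abs, abs_le]
      constructor
      · have := hcon (-x) (by rw [norm_neg, hx])
        rw [map_neg] at this
        linarith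
      · exact hcon x hx.le
    linarith
  set ε := φ x - c with hε
  have hε0 : 0 < ε := by linarith
  -- bound the cardinality of finite subsets
  obtain ⟨N, hN⟩ := exists_nat_gt (2 * ‖φ‖ / ε)
  by_contra hinf
  have hinf' : {t | ∀ x ∈ ball a t, φ x ≤ c}.Infinite := hinf
  obtain ⟨S, hS1, hS2⟩ := hinf'.exists_subset_card_eq N
  -- radius
  obtain ⟨r, hr0, hr⟩ : ∃ r : ℝ, 0 < r ∧ ∀ s ∈ S, ∀ t ∈ S, s ≠ t → 2 * r ≤ dist s t := by
    have : ∀ S : Finset K, ∃ r : ℝ, 0 < r ∧ ∀ s ∈ S, ∀ t ∈ S, s ≠ t → 2 * r ≤ dist s t := by
      intro S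
      classical
      by_cases h : ((S ×ˢ S).filter (fun p => p.1 ≠ p.2)).Nonempty
      · set m := ((S ×ˢ S).filter (fun p => p.1 ≠ p.2)).inf' h (fun p => dist p.1 p.2) with hm
        have hm0 : 0 < m := by
          rw [hm, Finset.lt_inf'_iff]
          intro p hp
          exact dist_pos.mpr (Finset.mem_filter.mp hp).2
        refine ⟨m/2, half_pos hm0, fun s hs t ht hst => ?_⟩
        have := Finset.inf'_le (fun p : K × K => dist p.1 p.2)
          (Finset.mem_filter.mpr ⟨Finset.mem_product.mpr ⟨hs, ht⟩, hst⟩ :
            (s, t) ∈ (S ×ˢ S).filter (fun p => p.1 ≠ p.2))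
        rw [← hm] at this
        show 2 * (m/2) ≤ dist s t
        linarith
      · refine ⟨1, one_pos, fun s hs t ht hst => ?_⟩
        exact absurd ⟨(s,t), Finset.mem_filter.mpr ⟨Finset.mem_product.mpr ⟨hs, ht⟩, hst⟩⟩ h
    exact this S
  -- the modifications
  let u : K → C(K, ℝ) := fun t => bump t r
  let y : K → C(K, ℝ) := fun t => u t * (x - ContinuousMap.const K (a t))
  have hxb : ∀ s, |x s| ≤ 1 := by
    intro s
    exact le_trans (x.norm_coe_le_norm s) hx1
  have hyφ : ∀ t ∈ S, ε ≤ φ (y t) := by
    intro t ht
    have hmem : x - y t ∈ ball a t := by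
      constructor
      · rw [ContinuousMap.norm_le _ zero_le_one]
        intro s
        show |x s - u t s * (x s - a t)| ≤ 1
        have h1 : x s - u t s * (x s - a t) = (1 - u t s) * x s + u t s * a t := by ring
        rw [h1]
        have h2 : 0 ≤ u t s := bump_nonneg t r s
        have h3 : u t s ≤ 1 := bump_le_one t r hr0 s
        calc |(1 - u t s) * x s + u t s * a t| ≤ |(1 - u t s) * x s| + |u t s * a t| := abs_add_le _ _
          _ = (1 - u t s) * |x s| + u t s * |a t| := by
              rw [abs_mul, abs_mul, abs_of_nonneg h2, abs_of_nonneg (by linarith : 0 ≤ 1 - u t s)]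
          _ ≤ (1 - u t s) * 1 + u t s * 1 := by
              gcongr
              · exact hxb s
              · exact ha t
          _ = 1 := by ring
      · show x t - u t t * (x t - a t) = a t
        have : u t t = 1 := bump_self t r
        rw [this]; ring
    have h4 := hS1 ht (x - y t) hmem
    rw [map_sub] at h4
    linarith
  have hsum : (N : ℝ) * ε ≤ φ (∑ t ∈ S, y t) := by
    rw [map_sum]
    calc (N : ℝ) * ε = ∑ t ∈ S, ε := by rw [Finset.sum_const, hS2, nsmul_eq_mul]
      _ ≤ ∑ t ∈ S, φ (y t) := Finset.sum_le_sum hyφ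
  have hnorm : ‖∑ t ∈ S, y t‖ ≤ 2 := by
    rw [ContinuousMap.norm_le _ (by norm_num)]
    intro s
    have h5 : (∑ t ∈ S, y t) s = ∑ t ∈ S, y t s := by
      simp [ContinuousMap.sum_apply]
    rw [h5]
    have h6 : ∀ t, |y t s| ≤ 2 := by
      intro t
      show |u t s * (x s - a t)| ≤ 2
      rw [abs_mul, abs_of_nonneg (bump_nonneg t r s)]
      have h7 : |x s - a t| ≤ 2 := by
        calc |x s - a t| ≤ |x s| + |a t| := abs_sub _ _
          _ ≤ 1 + 1 := add_le_add (hxb s) (ha t)
          _ = 2 := by norm_num
      calc bump t r s * |x s - a t| ≤ 1 * 2 := by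
            gcongr
            exact bump_le_one t r hr0 s
        _ = 2 := by norm_num
    by_cases hex : ∃ t ∈ S, dist s t < r
    · obtain ⟨t, ht, hdt⟩ := hex
      rw [Finset.sum_eq_single t]
      · exact h6 t
      · intro t' ht' hne
        show u t' s * _ = 0
        have h8 : u t' s = 0 := by
          apply bump_zero t' r hr0
          have h9 := hr t ht t' ht' (Ne.symm hne)
          have h10 := dist_triangle t s t'
          rw [dist_comm t s] at h10
          linarith
        rw [h8, zero_mul]
      · intro h; exact absurd ht h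
    · push Not at hex
      rw [Finset.sum_eq_zero]
      · simp
      · intro t ht
        show u t s * _ = 0
        have h8 : u t s = 0 := bump_zero t r hr0 s (hex t ht)
        rw [h8, zero_mul]
  have h11 : φ (∑ t ∈ S, y t) ≤ ‖φ‖ * 2 := by
    calc φ (∑ t ∈ S, y t) ≤ ‖φ (∑ t ∈ S, y t)‖ := le_abs_self _
      _ ≤ ‖φ‖ * ‖∑ t ∈ S, y t‖ := φ.le_opNorm _
      _ ≤ ‖φ‖ * 2 := by gcongr
  rw [div_lt_iff₀ hε0] at hN
  linarith

end general

/-- the diagonal evaluation of a scalarly measurable C(K)-valued function is measurable -/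
lemma diag_measurable {Ω K : Type} [MeasurableSpace Ω] [MetricSpace K] [CompactSpace K]
    [MeasurableSpace K] [BorelSpace K] (i : Ω → K) (hi : Measurable i) (f : Ω → C(K, ℝ))
    (hf : ∀ s, Measurable (fun t => f t s)) : Measurable (fun t => f t (i t)) := by
  have h1 : Measurable (Function.uncurry (fun (s : K) (t : Ω) => f t s)) := by
    apply measurable_uncurry_of_continuous_of_measurable
    · intro t
      exact (f t).continuous
    · exact hf
  exact h1.comp (hi.prodMk measurable_id)

/-- the example over an arbitrary probability space mapped injectively into a compact metric space -/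
lemma core {Ω K : Type} [MeasurableSpace Ω] [MetricSpace K] [CompactSpace K]
    [MeasurableSpace K] [BorelSpace K] (i : Ω → K) (hi : Measurable i)
    (hinj : Function.Injective i) (V : Set Ω) (hV : ¬ MeasurableSet V) :
    ∃ F : Ω → Set C(K, ℝ),
      (∀ t, (F t).Nonempty ∧ Convex ℝ (F t) ∧ IsClosed (F t) ∧ F t ⊆ Metric.closedBall 0 1) ∧
      ScalarlyMeasurableMulti F ∧
      ∀ f : Ω → C(K, ℝ), (∀ t, f t ∈ F t) → ¬ ScalarlyMeasurable f := by
  classical
  let a : Ω → ℝ := V.indicator (fun _ => 1)
  let b : K → ℝ := Function.extend i a 0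
  have hbi : ∀ t, b (i t) = a t := fun t => hinj.extend_apply a (0 : K → ℝ) t
  have ha : ∀ t, |a t| ≤ 1 := by
    intro t
    by_cases h : t ∈ V
    · simp [a, h]
    · simp [a, h]
  have hb : ∀ k, |b k| ≤ 1 := by
    intro k
    by_cases h : ∃ t, i t = k
    · obtain ⟨t, rfl⟩ := h
      rw [hbi]; exact ha t
    · have : b k = 0 := Function.extend_apply' (f := i) a (0 : K → ℝ) k h
      rw [this]; simp
  refine ⟨fun t => ball b (i t), ?_, ?_, ?_⟩
  · intro t
    refine ⟨ball_nonempty b hb (i t), ball_convex b (i t), ball_closed b (i t), ?_⟩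
    intro x hx
    simpa using hx.1
  · intro φ _ c
    by_cases hc : c < ‖φ‖
    · have h1 : {k | ∀ x ∈ ball b k, φ x ≤ c}.Finite := finite_bad b hb φ c hc
      have h3 : MeasurableSet {k | ∀ x ∈ ball b k, φ x ≤ c} := h1.measurableSet
      have h4 := hi h3
      have h5 : {t : Ω | (ball b (i t) ∩ {x | c < φ x}).Nonempty} =
          (i ⁻¹' {k | ∀ x ∈ ball b k, φ x ≤ c})ᶜ := by
        ext t
        constructor
        · rintro ⟨x, hx, hx2⟩ hall
          exact absurd (hall x hx) (not_le.mpr hx2)
        · intro ht
          by_contra hcon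
          apply ht
          intro x hx
          by_contra hlt
          exact hcon ⟨x, hx, not_le.mp hlt⟩
      rw [h5]
      exact h4.compl
    · have h6 : {t : Ω | (ball b (i t) ∩ {x | c < φ x}).Nonempty} = ∅ := by
        rw [Set.eq_empty_iff_forall_notMem]
        rintro t ⟨x, hx, hx2⟩
        apply hc
        calc c < φ x := hx2
          _ ≤ ‖φ x‖ := le_abs_self _
          _ ≤ ‖φ‖ * ‖x‖ := φ.le_opNorm x
          _ ≤ ‖φ‖ * 1 := by gcongr; exact hx.1
          _ = ‖φ‖ := mul_one _
      rw [h6]
      exact MeasurableSet.empty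
  · intro f hf hmeas
    apply hV
    have h2 : Measurable (fun t : Ω => f t (i t)) :=
      diag_measurable i hi f (fun s => hmeas (ContinuousMap.evalCLM ℝ s))
    have h5 : (fun t : Ω => f t (i t)) = a := by
      funext t
      exact (hf t).2.trans (hbi t)
    rw [h5] at h2
    have h3 : MeasurableSet (a ⁻¹' {1}) := h2 (measurableSet_singleton 1)
    have h4 : a ⁻¹' {1} = V := by
      ext t
      by_cases h : t ∈ V
      · simp [a, h]
      · simp [a, h]
    rw [h4] at h3
    exact h3

/-- There are a complete probability space Ω, a separable Banach space X and a scalarly measurable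
multi-function on Ω with nonempty, convex, closed values inside the unit ball of X which has no
scalarly measurable selector. -/
theorem result :
    ∃ (Ω : Type) (_ : MeasurableSpace Ω) (μ : Measure Ω) (_ : IsProbabilityMeasure μ)
      (_ : μ.IsComplete)
      (X : Type) (_ : NormedAddCommGroup X) (_ : NormedSpace ℝ X) (_ : CompleteSpace X)
      (_ : TopologicalSpace.SeparableSpace X) (F : Ω → Set X),
      (∀ t, (F t).Nonempty ∧ Convex ℝ (F t) ∧ IsClosed (F t) ∧ F t ⊆ Metric.closedBall 0 1) ∧
      ScalarlyMeasurableMulti F ∧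
      ∀ f : Ω → X, (∀ t, f t ∈ F t) → ¬ ScalarlyMeasurable f := by
  obtain ⟨V, hV⟩ := exists_not_nullMeasurable
  have hprob : IsProbabilityMeasure (volume : Measure UnitAddCircle).completion := by
    constructor
    have h0 : (volume : Measure UnitAddCircle).completion Set.univ = 1 := by
      have := Measure.completion_apply (volume : Measure UnitAddCircle) Set.univ
      exact this.trans UnitAddCircle.measure_univ
    exact h0
  let i : NullMeasurableSpace UnitAddCircle (volume : Measure UnitAddCircle) → UnitAddCircle :=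
    fun t => t
  have hi : Measurable i := by
    intro A hA
    exact (hA.nullMeasurableSet : NullMeasurableSet A (volume : Measure UnitAddCircle))
  have hinj : Function.Injective i := fun x y h => h
  obtain ⟨F, h1, h2, h3⟩ := core i hi hinj V hV
  exact ⟨NullMeasurableSpace UnitAddCircle (volume : Measure UnitAddCircle), inferInstance,
    (volume : Measure UnitAddCircle).completion, hprob, inferInstance,
    C(UnitAddCircle, ℝ), inferInstance, inferInstance, inferInstance, inferInstance,
    F, h1, h2, h3⟩

end Pool.Agent.Results.MP_93dabc_an.NoSelector
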